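import Mathlib

namespace Pool.Agent.Results.MP_fb02e9_lc.Equal
open Filter Set Topology Cardinal

/-- independent family of infinite subsets of `ℕ`, given by characteristic functions -/
def Indep (A : Set (ℕ → Bool)) : Prop :=
  (∀ a ∈ A, {n | a n = true}.Infinite) ∧
    ∀ F G : Finset (ℕ → Bool), ↑F ⊆ A → ↑G ⊆ A → Disjoint F G → (F.Nonempty ∨ G.Nonempty) →
      {n | (∀ a ∈ F, a n = true) ∧ ∀ b ∈ G, b n = false}.Infinite

/-- least size of a non-meager subset of the Cantor space -/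
noncomputable def nonMeager : Cardinal.{0} :=
  sInf {c | ∃ X : Set (ℕ → Bool), ¬ IsMeagre X ∧ #X = c}

/-- least size of a non-meager independent family -/
noncomputable def iMeager : Cardinal.{0} :=
  sInf {c | ∃ A : Set (ℕ → Bool), Indep A ∧ ¬ IsMeagre A ∧ #A = c}

theorem cyl {D : Set (ℕ → Bool)} (hD : IsOpen D) {y : ℕ → Bool} (hy : y ∈ D) :
    ∃ k, ∀ z : ℕ → Bool, (∀ i < k, z i = y i) → z ∈ D := by
  obtain ⟨I, u, h1, h2⟩ := isOpen_pi_iff.1 hD y hy
  obtain ⟨k, hk⟩ := I.finite_toSet.bddAbove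
  exact ⟨k + 1, fun z hz => h2 fun i hi => by
    rw [hz i (Nat.lt_succ_of_le (hk hi))]; exact (h1 i hi).2⟩

def flip (t : Finset ℕ) : (ℕ → Bool) ≃ₜ (ℕ → Bool) where
  toFun y i := xor (y i) (decide (i ∈ t))
  invFun y i := xor (y i) (decide (i ∈ t))
  left_inv y := by ext i; simp
  right_inv y := by ext i; simp
  continuous_toFun := continuous_pi fun i =>
    (continuous_of_discreteTopology (f := fun b => xor b (decide (i ∈ t)))).comp (continuous_apply i)
  continuous_invFun := continuous_pi fun i =>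
    (continuous_of_discreteTopology (f := fun b => xor b (decide (i ∈ t)))).comp (continuous_apply i)

theorem window {D : Set (ℕ → Bool)} (h1 : IsOpen D) (h2 : Dense D) (k : ℕ) :
    ∃ (k' : ℕ) (y : ℕ → Bool), ∀ z : ℕ → Bool, (∀ i, k ≤ i → i < k' → z i = y i) → z ∈ D := by
  let D' := ⋂ t ∈ (Finset.range k).powerset, flip t ⁻¹' D
  have o : IsOpen D' := isOpen_biInter_finset fun t _ => h1.preimage (flip t).continuous
  have d : Dense D' := dense_biInter_of_isOpen
    (fun t _ => h1.preimage (flip t).continuous) (Finset.countable_toSet _) fun t _ => h2.preimage (flip t).isOpenMap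
  obtain ⟨y, hy⟩ := d.nonempty
  obtain ⟨k', hk'⟩ := cyl o hy
  refine ⟨k', y, fun z hz => ?_⟩
  let t := (Finset.range k).filter fun i => z i ≠ y i
  have : flip t z ∈ D' := hk' _ fun i hi => by
    change xor (z i) (decide (i ∈ t)) = y i
    by_cases h : i < k
    · cases h1 : z i <;> cases h2 : y i <;> simp [t, h, h1, h2]
    · simp [t, h, hz i (by omega) hi]
  have h3 := mem_iInter₂.1 this t (Finset.mem_powerset.2 (Finset.filter_subset _ _))
  exact (show flip t (flip t z) = z from (flip t).left_inv z) ▸ h3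

theorem resid {J : ℕ → Finset ℕ} {y : ℕ → ℕ → Bool} {S : ℕ → Prop}
    (h : ∀ m, ∃ n, m ≤ n ∧ S n ∧ ∀ i ∈ J n, m ≤ i) :
    {x : ℕ → Bool | ∀ m, ∃ n, m ≤ n ∧ S n ∧ ∀ i ∈ J n, x i = y n i} ∈ residual (ℕ → Bool) := by
  rw [Set.ofPred_forall, countable_iInter_mem]
  intro m
  refine residual_of_dense_open ?_ ?_
  · rw [Set.ofPred_exists]
    refine isOpen_iUnion fun n => ?_
    by_cases hn : m ≤ n ∧ S n
    · have : {x : ℕ → Bool | m ≤ n ∧ S n ∧ ∀ i ∈ J n, x i = y n i} =
          ⋂ i ∈ J n, (fun x : ℕ → Bool => x i) ⁻¹' {y n i} := by ext x; simp [hn]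
      rw [this]
      exact isOpen_biInter_finset fun i _ => (isOpen_discrete _).preimage (continuous_apply i)
    · have : {x : ℕ → Bool | m ≤ n ∧ S n ∧ ∀ i ∈ J n, x i = y n i} = ∅ :=
        eq_empty_of_forall_notMem fun x hx => hn ⟨hx.1, hx.2.1⟩
      rw [this]; exact isOpen_empty
  · refine dense_iff_inter_open.2 fun V hV ⟨x, hx⟩ => ?_
    obtain ⟨k, hk⟩ := cyl hV hx
    obtain ⟨n, h1, h2, h3⟩ := h (m + k)
    refine ⟨fun i => if i ∈ J n then y n i else x i, hk _ fun i hi => if_neg fun h4 => ?_,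
      n, by omega, h2, fun i hi => if_pos hi⟩
    have := h3 i h4
    omega

theorem meet {X R : Set (ℕ → Bool)} (hX : ¬ IsMeagre X) (hR : R ∈ residual (ℕ → Bool)) :
    ∃ x ∈ X, x ∈ R := by
  by_contra h
  push Not at h
  exact hX (mem_of_superset hR fun x hx hx' => h x hx' hx)

abbrev D : Type := Σ k : ℕ, ((Fin k → Bool × Bool) → Bool)

instance : Infinite D :=
  Infinite.of_injective (fun k => (⟨k, fun _ => true⟩ : D)) fun _ _ h => congrArg Sigma.fst h

theorem main {X : Set (ℕ → Bool)} (hX : ¬ IsMeagre X) :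
    ∃ A, Indep A ∧ ¬ IsMeagre A ∧ #A ≤ #X := by
  classical
  have hinf : X.Infinite := fun hf => hX (by
    obtain ⟨k, hk⟩ : ∃ k : ℕ → ℕ → Bool, X ⊆ range k := countable_iff_exists_subset_range.1 hf.countable
    refine IsMeagre.mono ?_ (isMeagre_iUnion (f := fun n => {k n}) fun n => ?_)
    · intro x hx; obtain ⟨n, rfl⟩ := hk hx; exact mem_iUnion.2 ⟨n, rfl⟩
    · refine mem_of_superset (resid (J := fun i => {i}) (y := fun i j => !(k n j))
        (S := fun _ => True) fun m => ⟨m, le_rfl, trivial, by simp⟩) ?_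
      rintro x hx rfl
      obtain ⟨i, -, -, h⟩ := hx 0
      simpa using h i (by simp))
  obtain ⟨φ⟩ : Nonempty (ℕ ≃ D) := nonempty_equiv_of_countable
  let U := hyperfilter ℕ
  let ng : (ℕ → Bool) ≃ₜ (ℕ → Bool) :=
    { toFun := fun y i => !(y i)
      invFun := fun y i => !(y i)
      left_inv := fun y => by ext i; simp
      right_inv := fun y => by ext i; simp
      continuous_toFun := continuous_pi fun i =>
        (continuous_of_discreteTopology (f := fun b => !b)).comp (continuous_apply i)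
      continuous_invFun := continuous_pi fun i =>
        (continuous_of_discreteTopology (f := fun b => !b)).comp (continuous_apply i) }
  let F : Set (ℕ → Bool) := {Z | Z ∈ X ∪ ng '' X ∧ {n | Z n = true} ∈ U}
  have hF : ¬ IsMeagre F := fun h => hX (by
    refine IsMeagre.mono ?_ (h.union (h.preimage_of_isOpenMap ng.continuous ng.isOpenMap))
    intro x hx
    by_cases h1 : {n | x n = true} ∈ U
    · exact Or.inl ⟨Or.inl hx, h1⟩
    · refine Or.inr ⟨Or.inr ⟨x, hx, rfl⟩, mem_of_superset (Ultrafilter.compl_mem_iff_notMem.2 h1) ?_⟩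
      intro n hn
      simpa [ng] using hn)
  let res : (ℕ → Bool) × (ℕ → Bool) → (k : ℕ) → Fin k → Bool × Bool := fun p k j => (p.1 j, p.2 j)
  let a : (ℕ → Bool) × (ℕ → Bool) → ℕ → Bool := fun p i =>
    if p.2 (φ i).1 = true then (φ i).2 (res p _) else p.1 i
  have ind : ∀ P Q : Finset (ℕ → Bool), ↑P ⊆ a '' X ×ˢ F → ↑Q ⊆ a '' X ×ˢ F → Disjoint P Q →
      {n | (∀ c ∈ P, c n = true) ∧ ∀ b ∈ Q, b n = false}.Infinite := by
    intro P Q hP hQ hd
    have : ∀ c ∈ P ∪ Q, ∃ p ∈ X ×ˢ F, a p = c := fun c hc =>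
      (Finset.mem_union.1 hc).elim (fun h => hP h) fun h => hQ h
    choose! p hp1 hp2 using this
    have e1 : ∀ᶠ k in (U : Filter ℕ), ∀ c ∈ P ∪ Q, (p c).2 k = true :=
      (eventually_all_finset _).2 fun c hc => (hp1 c hc).2.2
    have e2 : ∀ᶠ k in (U : Filter ℕ), ∀ c ∈ P, ∀ b ∈ Q, res (p c) k ≠ res (p b) k := by
      refine (eventually_all_finset _).2 fun c hc => (eventually_all_finset _).2 fun b hb => ?_
      have hne : p c ≠ p b := fun e => Finset.disjoint_left.1 hd hc (by
        rwa [← hp2 c (Finset.mem_union_left _ hc), e, hp2 b (Finset.mem_union_right _ hb)])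
      have : ∃ j, ((p c).1 j, (p c).2 j) ≠ ((p b).1 j, (p b).2 j) := by
        by_contra h
        push Not at h
        exact hne (Prod.ext (funext fun j => congrArg Prod.fst (h j))
          (funext fun j => congrArg Prod.snd (h j)))
      obtain ⟨j, hj⟩ := this
      refine Nat.hyperfilter_le_atTop ((eventually_gt_atTop j).mono fun k hk e => hj ?_)
      exact congrFun e ⟨j, hk⟩
    have e3 : {k | (∀ c ∈ P ∪ Q, (p c).2 k = true) ∧
        ∀ c ∈ P, ∀ b ∈ Q, res (p c) k ≠ res (p b) k}.Infinite := fun hf =>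
      hf.notMem_hyperfilter (e1.and e2)
    let g : ℕ → ℕ := fun k => φ.symm ⟨k, fun s => decide (∃ c ∈ P, res (p c) k = s)⟩
    have hg : Function.Injective g := fun k l h => congrArg Sigma.fst (φ.symm.injective h)
    refine (e3.image hg.injOn).mono ?_
    rintro _ ⟨k, ⟨h1, h2⟩, rfl⟩
    have val : ∀ c ∈ P ∪ Q, c (g k) = decide (∃ c' ∈ P, res (p c') k = res (p c) k) := by
      intro c hc
      conv_lhs => rw [← hp2 c hc]
      simp only [a, g]
      rw [φ.apply_symm_apply]
      exact if_pos (h1 c hc)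
    refine ⟨fun c hc => ?_, fun b hb => ?_⟩
    · rw [val c (Finset.mem_union_left _ hc)]; exact decide_eq_true ⟨c, hc, rfl⟩
    · rw [val b (Finset.mem_union_right _ hb)]
      exact decide_eq_false fun ⟨c, hc, e⟩ => h2 c hc b hb e
  refine ⟨a '' X ×ˢ F, ⟨fun c hc => ?_, fun P Q hP hQ hd _ => ind P Q hP hQ hd⟩, fun hA => ?_, ?_⟩
  · simpa using ind {c} ∅ (by simpa using hc) (by simp) (by simp)
  · obtain ⟨S, hS1, hS2, hS3, hS4⟩ := mem_residual_iff.1 hA
    obtain ⟨d, hd⟩ := (hS3.insert Set.univ).exists_eq_range (insert_nonempty _ _)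
    have hdo : ∀ n, IsOpen (d n) ∧ Dense (d n) := fun n => by
      have : d n ∈ insert Set.univ S := hd ▸ mem_range_self n
      rcases this with h | h
      · rw [h]; exact ⟨isOpen_univ, dense_univ⟩
      · exact ⟨hS1 _ h, hS2 _ h⟩
    choose k' y hy using fun n => window (D := ⋂ j ∈ Finset.range (n + 1), d j)
      (isOpen_biInter_finset fun j _ => (hdo j).1)
      (dense_biInter_of_isOpen (fun j _ => (hdo j).1) (Finset.countable_toSet _)
        fun j _ => (hdo j).2) n
    obtain ⟨x, hx, hx'⟩ := meet hX (resid (J := fun n => Finset.Ico n (k' n)) (y := y)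
      (S := fun _ => True) fun m => ⟨m, le_rfl, trivial, fun i hi => (Finset.mem_Ico.1 hi).1⟩)
    obtain ⟨Z, hZ, hZ'⟩ := meet hF (resid (J := fun n => (Finset.Ico n (k' n)).image fun i => (φ i).1)
      (y := fun _ _ => false) (S := fun n => ∀ i ∈ Finset.Ico n (k' n), x i = y n i) fun m => by
        have hfin : {i | (φ i).1 < m}.Finite := by
          refine Finite.preimage (f := φ) (s := {q : D | q.1 < m}) φ.injective.injOn ?_
          refine ((finite_lt_nat m).biUnion fun k _ => finite_range (Sigma.mk k : _ → D)).subset ?_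
          rintro ⟨k, e⟩ h
          exact mem_biUnion h ⟨e, rfl⟩
        obtain ⟨B, hB⟩ := hfin.bddAbove
        obtain ⟨n, h1, -, h2⟩ := hx' (m + B + 1)
        refine ⟨n, by omega, h2, fun j hj => ?_⟩
        obtain ⟨i, hi, rfl⟩ := Finset.mem_image.1 hj
        by_contra h
        have := hB (not_le.1 h)
        have := (Finset.mem_Ico.1 hi).1
        omega)
    refine hS4 (fun t ht => ?_) ⟨(x, Z), ⟨hx, hZ⟩, rfl⟩
    obtain ⟨m, rfl⟩ : t ∈ range d := hd ▸ mem_insert_of_mem _ ht
    obtain ⟨n, h1, h2, h3⟩ := hZ' m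
    refine mem_iInter₂.1 (hy n (a (x, Z)) fun i hi hi' => ?_) m (Finset.mem_range.2 (by omega))
    have hi2 := Finset.mem_Ico.2 ⟨hi, hi'⟩
    have := h3 _ (Finset.mem_image_of_mem _ hi2)
    simp only [a, this]
    exact h2 i hi2
  · have h0 : ℵ₀ ≤ #X := infinite_iff.1 hinf.to_subtype
    have h1 : #F ≤ #X := by
      refine (mk_le_mk_of_subset fun Z hZ => hZ.1).trans ((mk_union_le _ _).trans ?_)
      exact (add_le_add le_rfl mk_image_le).trans (add_eq_self h0).le
    refine mk_image_le.trans ?_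
    rw [mk_setProd]
    exact (mul_le_mul' le_rfl h1).trans (mul_eq_self h0).le

theorem result : iMeager = nonMeager := by
  have h0 : ¬ IsMeagre (Set.univ : Set (ℕ → Bool)) := fun h => by
    simpa using (dense_of_mem_residual h).nonempty
  obtain ⟨X, hX, e⟩ := csInf_mem (s := {c | ∃ X : Set (ℕ → Bool), ¬ IsMeagre X ∧ #X = c})
    ⟨_, Set.univ, h0, rfl⟩
  obtain ⟨A, h1, h2, h3⟩ := main hX
  have h4 : iMeager ≤ #A := csInf_le' ⟨A, h1, h2, rfl⟩
  refine le_antisymm (h4.trans (h3.trans e.le)) ?_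
  refine le_csInf ⟨_, A, h1, h2, rfl⟩ ?_
  rintro _ ⟨B, -, h, rfl⟩
  exact csInf_le' ⟨B, h, rfl⟩

end Pool.Agent.Results.MP_fb02e9_lc.Equal
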